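import Pool.Agent.TH660.RB.Common

/-!
# MP_ac2b6c_lc: the red-blue cut problem in directed graphs is NP-complete

The reduction is from the clique problem `(H, k)`. The digraph has a vertex for every vertex `v` and
every edge `e = uv` of `H`, red arcs `s → e`, `e → u`, `e → v` and blue arcs `v → t`. For `s ∈ X`,
`t ∉ X` and a set `K` of vertices of `H` in `X`, the arcs of an edge `e` contribute at least one red
arc unless both ends of `e` are in `K`. In order to force `s ∈ X` and `t ∉ X`, the vertices `s` and `t`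
are replaced by large sets `S` and `T` of vertices, and there are red arcs from every vertex to all
vertices in `S` and from all vertices in `T` to every vertex. The digraph has no loops and no parallel
arcs.
-/

set_option autoImplicit false

namespace Pool.Agent.Results.MP_ac2b6c_lc.DirectedRedBlueCutNPComplete

open Pool.Agent.NPC Pool.Agent.NPC.H634R2 Pool.Agent.H673R2 Pool.Agent.TH660.RB

/-- A list of coloured arcs: `((u, v), true)` is a red arc from `u` to `v`, and `((u, v), false)` is
a blue arc from `u` to `v`. -/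
abbrev CArcs : Type := List ((ℕ × ℕ) × Bool)

/-- An instance `((V, A), (r, b))`: the list `V` of the vertices (which are natural numbers), the
list `A` of the coloured arcs, and the two bounds. -/
abbrev Inst : Type := (List ℕ × CArcs) × (ℕ × ℕ)

/-- The instance is well formed: the vertices are listed once, every arc joins two distinct
vertices, and no arc is listed twice (so every arc has just one of the two colours; there are no
loops and no parallel arcs). -/
def Valid (I : Inst) : Prop :=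
  I.1.1.Nodup ∧ (∀ e ∈ I.1.2.map Prod.fst, e.1 ∈ I.1.1 ∧ e.2 ∈ I.1.1 ∧ e.1 ≠ e.2) ∧
    (I.1.2.map Prod.fst).Nodup

/-- The number of arcs of colour `c` in the cut `δ⁺(X)`, that is, with tail in `X` and head outside
of `X`. -/
def cutSize (A : CArcs) (X : Finset ℕ) (c : Bool) : ℕ :=
  (A.filter (fun e => e.2 = c ∧ e.1.1 ∈ X ∧ e.1.2 ∉ X)).length

/-- The question: is there a nonempty proper subset `X` of the set of vertices such that `δ⁺(X)`
contains at most `r` red and at most `b` blue arcs? -/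
def HasCut (I : Inst) : Prop :=
  ∃ X : Finset ℕ, (∀ v ∈ X, v ∈ I.1.1) ∧ X.Nonempty ∧ (∃ v ∈ I.1.1, v ∉ X) ∧
    cutSize I.1.2 X true ≤ I.2.1 ∧ cutSize I.1.2 X false ≤ I.2.2

/-! ### The reduction -/

/-- the vertices: `4 i` (copies of `s`), `4 i + 1` (copies of `t`), `4 v + 2` (vertices of `H`),
`4 i + 3` (edges of `H`) -/
def verts (V : List ℕ) (E : List (ℕ × ℕ)) : List ℕ :=
  (List.range (E.length + 3)).map (fun i => 4 * i) ++
    ((List.range (E.length + 3)).map (fun i => 4 * i + 1) ++
      (V.map (fun v => 4 * v + 2) ++ (List.range E.length).map (fun i => 4 * i + 3)))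

/-- the pairs of vertices joined by a heavy arc -/
def heavyB (q : ℕ × ℕ) : Bool := !decide (q.1 = q.2) && (decide (q.2 % 4 = 0) || decide (q.1 % 4 = 1))

/-- the heavy arcs -/
def heavy (W : List ℕ) : CArcs := ((W ×ˢ W).filter heavyB).map (fun q => (q, true))

/-- the other red arcs -/
def reds (E : List (ℕ × ℕ)) : CArcs :=
  E.zipIdx.map (fun p => ((0, 4 * p.2 + 3), true)) ++
  (E.zipIdx.map (fun p => ((4 * p.2 + 3, 4 * p.1.1 + 2), true)) ++
  E.zipIdx.map (fun p => ((4 * p.2 + 3, 4 * p.1.2 + 2), true)))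

/-- the blue arcs -/
def blues (V : List ℕ) : CArcs := V.map (fun v => ((4 * v + 2, 1), false))

/-- all arcs -/
def arcs (V : List ℕ) (E : List (ℕ × ℕ)) : CArcs := heavy (verts V E) ++ (reds E ++ blues V)

/-- a no-instance -/
def noInst : Inst := (([0, 1], [((0, 1), true), ((1, 0), true)]), (0, 0))

/-- the reduction -/
def red (J : (List ℕ × List (ℕ × ℕ)) × ℕ) : Inst :=
  if J.2 * (J.2 - 1) ≤ 2 * J.1.2.length then
    ((verts J.1.1 J.1.2, arcs J.1.1 J.1.2), (J.1.2.length - J.2 * (J.2 - 1) / 2, J.2))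
  else noInst

theorem verts_poly {α : Type} [TEnc α] {V : α → List ℕ} {E : α → List (ℕ × ℕ)} (hV : NPC.Poly V)
    (hE : NPC.Poly E) : NPC.Poly (fun a => verts (V a) (E a)) := by
  unfold verts
  have h1 : NPC.Poly (fun a => List.range ((E a).length + 3)) :=
    (UPoly.add (UPoly.length hE) (UPoly.const 3)).range
  have h2 : NPC.Poly (fun a => List.range ((E a).length)) := (UPoly.length hE).range
  fun_prop

theorem red_poly : NPC.Poly red := by
  unfold red
  refine Poly.ite (Poly.decide_le (by fun_prop) (by fun_prop)) ?_ (NPC.Poly.const _)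
  have h := verts_poly (α := (List ℕ × List (ℕ × ℕ)) × ℕ) (V := fun J => J.1.1)
    (E := fun J => J.1.2) (by fun_prop) (by fun_prop)
  unfold arcs heavy heavyB reds blues
  fun_prop

/-! ### Validity -/

theorem nodup_zipIdx_map {α β : Type} (l : List α) (f : α × ℕ → β)
    (hf : ∀ x y : α × ℕ, f x = f y → x.2 = y.2) : (l.zipIdx.map f).Nodup := by
  refine List.Nodup.map_on ?_ ?_
  · intro x hx y hy h
    have h2 := hf x y h
    obtain ⟨a, i⟩ := x
    obtain ⟨b, j⟩ := y
    simp only at h2
    subst h2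
    rw [List.mem_zipIdx_iff_getElem?] at hx hy
    simp only at hx hy
    rw [hx] at hy
    simp only [Option.some.injEq] at hy
    rw [hy]
  · have h1 : (l.zipIdx.map Prod.snd).Nodup := by
      rw [List.zipIdx_map_snd]
      exact List.nodup_range'
    exact List.Nodup.of_map _ h1

theorem noInst_valid : Valid noInst := by
  refine ⟨by decide, by decide, by decide⟩

theorem mem_verts {V : List ℕ} {E : List (ℕ × ℕ)} {x : ℕ} : x ∈ verts V E ↔
    (∃ i < E.length + 3, 4 * i = x) ∨ (∃ i < E.length + 3, 4 * i + 1 = x) ∨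
      (∃ v ∈ V, 4 * v + 2 = x) ∨ (∃ i < E.length, 4 * i + 3 = x) := by
  unfold verts
  simp only [List.mem_append, List.mem_map, List.mem_range]

theorem verts_nodup {V : List ℕ} (E : List (ℕ × ℕ)) (hV : V.Nodup) : (verts V E).Nodup := by
  unfold verts
  rw [List.nodup_append, List.nodup_append, List.nodup_append]
  refine ⟨?_, ⟨?_, ⟨?_, ?_, ?_⟩, ?_⟩, ?_⟩
  · exact List.Nodup.map (fun a b (h : 4 * a = 4 * b) => by omega) List.nodup_range
  · exact List.Nodup.map (fun a b (h : 4 * a + 1 = 4 * b + 1) => by omega) List.nodup_range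
  · exact List.Nodup.map (fun a b (h : 4 * a + 2 = 4 * b + 2) => by omega) hV
  · exact List.Nodup.map (fun a b (h : 4 * a + 3 = 4 * b + 3) => by omega) List.nodup_range
  · intro a ha b hb
    simp only [List.mem_map] at ha hb
    obtain ⟨x, _, rfl⟩ := ha
    obtain ⟨y, _, rfl⟩ := hb
    omega
  · intro a ha b hb
    simp only [List.mem_append, List.mem_map] at ha hb
    obtain ⟨x, _, rfl⟩ := ha
    rcases hb with ⟨y, _, rfl⟩ | ⟨y, _, rfl⟩ <;> omega
  · intro a ha b hb
    simp only [List.mem_append, List.mem_map] at ha hb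
    obtain ⟨x, _, rfl⟩ := ha
    rcases hb with ⟨y, _, rfl⟩ | ⟨y, _, rfl⟩ | ⟨y, _, rfl⟩ <;> omega

theorem mem_heavy {W : List ℕ} {q : ℕ × ℕ} : q ∈ (heavy W).map Prod.fst ↔
    q.1 ∈ W ∧ q.2 ∈ W ∧ q.1 ≠ q.2 ∧ (q.2 % 4 = 0 ∨ q.1 % 4 = 1) := by
  obtain ⟨a, b⟩ := q
  unfold heavy heavyB
  simp only [List.map_map, List.mem_map, List.mem_filter, Function.comp_apply]
  constructor
  · rintro ⟨⟨c, d⟩, ⟨h1, h2⟩, h3⟩
    simp only [Prod.mk.injEq] at h3
    obtain ⟨rfl, rfl⟩ := h3
    rw [List.mem_product] at h1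
    simp at h2
    exact ⟨h1.1, h1.2, h2.1, h2.2⟩
  · rintro ⟨h1, h2, h3, h4⟩
    refine ⟨(a, b), ⟨List.mem_product.2 ⟨h1, h2⟩, ?_⟩, rfl⟩
    simp [h3, h4]

theorem heavy_nodup {W : List ℕ} (hW : W.Nodup) : ((heavy W).map Prod.fst).Nodup := by
  unfold heavy
  rw [List.map_map]
  have h : (Prod.fst ∘ fun q : ℕ × ℕ => (q, true)) = fun q => q := rfl
  rw [h, List.map_id']
  exact (List.Nodup.product hW hW).filter _

theorem fst_map_eq (V : List ℕ) (E : List (ℕ × ℕ)) : (reds E ++ blues V).map Prod.fst =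
    E.zipIdx.map (fun p => (0, 4 * p.2 + 3)) ++
    (E.zipIdx.map (fun p => (4 * p.2 + 3, 4 * p.1.1 + 2)) ++
    (E.zipIdx.map (fun p => (4 * p.2 + 3, 4 * p.1.2 + 2)) ++ V.map (fun v => (4 * v + 2, 1)))) := by
  unfold reds blues
  simp only [List.map_append, List.map_map, List.append_assoc]
  rfl

theorem lt_of_mem_zipIdx {α : Type} {l : List α} {p : α × ℕ} (h : p ∈ l.zipIdx) :
    p.2 < l.length := by
  rw [List.mem_zipIdx_iff_getElem?] at h
  exact (List.getElem?_eq_some_iff.1 h).1

theorem valid_arcs {V : List ℕ} {E : List (ℕ × ℕ)} (hG : IsGraph V E) :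
    (verts V E).Nodup ∧ (∀ e ∈ (arcs V E).map Prod.fst, e.1 ∈ verts V E ∧ e.2 ∈ verts V E ∧
      e.1 ≠ e.2) ∧ ((arcs V E).map Prod.fst).Nodup := by
  obtain ⟨hV, hE, hn⟩ := hG
  have hmem : ∀ p ∈ E.zipIdx, p.1 ∈ E := fun p hp => List.fst_mem_of_mem_zipIdx hp
  refine ⟨verts_nodup E hV, ?_, ?_⟩
  · intro e he
    unfold arcs at he
    rw [List.map_append, List.mem_append, fst_map_eq] at he
    rcases he with he | he
    · rw [mem_heavy] at he
      exact ⟨he.1, he.2.1, he.2.2.1⟩
    · simp only [List.mem_append, List.mem_map] at he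
      rw [mem_verts, mem_verts]
      rcases he with ⟨p, hp, rfl⟩ | ⟨p, hp, rfl⟩ | ⟨p, hp, rfl⟩ | ⟨v, hv, rfl⟩
      · exact ⟨Or.inl ⟨0, by omega, rfl⟩, Or.inr (Or.inr (Or.inr ⟨p.2, lt_of_mem_zipIdx hp, rfl⟩)),
          by simp only; omega⟩
      · exact ⟨Or.inr (Or.inr (Or.inr ⟨p.2, lt_of_mem_zipIdx hp, rfl⟩)),
          Or.inr (Or.inr (Or.inl ⟨p.1.1, (hE _ (hmem p hp)).1, rfl⟩)), by simp only; omega⟩
      · exact ⟨Or.inr (Or.inr (Or.inr ⟨p.2, lt_of_mem_zipIdx hp, rfl⟩)),
          Or.inr (Or.inr (Or.inl ⟨p.1.2, (hE _ (hmem p hp)).2.1, rfl⟩)), by simp only; omega⟩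
      · exact ⟨Or.inr (Or.inr (Or.inl ⟨v, hv, rfl⟩)), Or.inr (Or.inl ⟨0, by omega, rfl⟩),
          by simp only; omega⟩
  · unfold arcs
    rw [List.map_append, List.nodup_append, fst_map_eq]
    refine ⟨heavy_nodup (verts_nodup E hV), ?_, ?_⟩
    · simp only [List.nodup_append]
      refine ⟨nodup_zipIdx_map _ _ ?_, ⟨nodup_zipIdx_map _ _ ?_, ⟨nodup_zipIdx_map _ _ ?_,
        List.Nodup.map ?_ hV, ?_⟩, ?_⟩, ?_⟩
      · intro x y h; simp only [Prod.mk.injEq] at h; omega
      · intro x y h; simp only [Prod.mk.injEq] at h; omega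
      · intro x y h; simp only [Prod.mk.injEq] at h; omega
      · intro x y h; simp only [Prod.mk.injEq] at h; omega
      · intro a ha b hb
        simp only [List.mem_map] at ha hb
        obtain ⟨x, _, rfl⟩ := ha
        obtain ⟨y, _, rfl⟩ := hb
        simp only [ne_eq, Prod.mk.injEq]; omega
      · intro a ha b hb
        simp only [List.mem_append, List.mem_map] at ha hb
        obtain ⟨x, hx, rfl⟩ := ha
        rcases hb with ⟨y, hy, rfl⟩ | ⟨y, hy, rfl⟩
        · simp only [ne_eq, Prod.mk.injEq]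
          rintro ⟨h1, h2⟩
          have h3 : x = y := by
            obtain ⟨x1, i⟩ := x
            obtain ⟨y1, j⟩ := y
            simp only at h1 h2
            have hij : i = j := by omega
            subst hij
            rw [List.mem_zipIdx_iff_getElem?] at hx hy
            simp only at hx hy
            rw [hx] at hy
            simp only [Option.some.injEq] at hy
            rw [hy]
          rw [h3] at h2
          have := (hE _ (hmem y hy)).2.2
          omega
        · simp only [ne_eq, Prod.mk.injEq]; omega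
      · intro a ha b hb
        simp only [List.mem_append, List.mem_map] at ha hb
        obtain ⟨x, _, rfl⟩ := ha
        rcases hb with ⟨y, _, rfl⟩ | ⟨y, _, rfl⟩ | ⟨y, _, rfl⟩ <;>
          (simp only [ne_eq, Prod.mk.injEq]; omega)
    · intro a ha b hb
      rw [mem_heavy] at ha
      simp only [List.mem_append, List.mem_map] at hb
      rintro rfl
      rcases hb with ⟨y, _, rfl⟩ | ⟨y, _, rfl⟩ | ⟨y, _, rfl⟩ | ⟨y, _, rfl⟩ <;>
        (have h := ha.2.2.2; simp only at h; omega)

/-! ### Counting the cut arcs -/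

theorem cutSize_append (A B : CArcs) (X : Finset ℕ) (c : Bool) :
    cutSize (A ++ B) X c = cutSize A X c + cutSize B X c := by
  unfold cutSize
  rw [List.filter_append, List.length_append]

theorem cutSize_map {α : Type} (l : List α) (f : α → (ℕ × ℕ) × Bool) (X : Finset ℕ) (c : Bool) :
    cutSize (l.map f) X c =
      l.countP (fun a => decide ((f a).2 = c ∧ (f a).1.1 ∈ X ∧ (f a).1.2 ∉ X)) := by
  unfold cutSize
  rw [← List.countP_eq_length_filter, List.countP_map]
  rfl

theorem sum_le {α : Type} (l : List α) (p₁ p₂ p₃ q : α → Bool)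
    (h : ∀ a ∈ l, (q a).toNat ≤ (p₁ a).toNat + ((p₂ a).toNat + (p₃ a).toNat)) :
    l.countP q ≤ l.countP p₁ + (l.countP p₂ + l.countP p₃) := by
  induction l with
  | nil => simp
  | cons a l ih =>
    have h1 := h a (by simp)
    have h2 := ih (fun b hb => h b (by simp [hb]))
    simp only [List.countP_cons]
    cases hq : q a <;> cases h1' : p₁ a <;> cases h2' : p₂ a <;> cases h3' : p₃ a <;>
      simp_all <;> omega

theorem sum_ge {α : Type} (l : List α) (p₁ p₂ p₃ q : α → Bool)
    (h : ∀ a ∈ l, (p₁ a).toNat + ((p₂ a).toNat + (p₃ a).toNat) ≤ (q a).toNat) :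
    l.countP p₁ + (l.countP p₂ + l.countP p₃) ≤ l.countP q := by
  induction l with
  | nil => simp
  | cons a l ih =>
    have h1 := h a (by simp)
    have h2 := ih (fun b hb => h b (by simp [hb]))
    simp only [List.countP_cons]
    cases hq : q a <;> cases h1' : p₁ a <;> cases h2' : p₂ a <;> cases h3' : p₃ a <;>
      simp_all <;> omega

/-- the number of bad edges -/
theorem countP_bad (E : List (ℕ × ℕ)) (K : Finset ℕ) :
    E.countP (fun e => !(good K e)) + E.countP (good K) = E.length := by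
  have h := List.length_eq_countP_add_countP (good K) (l := E)
  have h2 : E.countP (fun a => decide ¬ good K a = true) = E.countP (fun e => !(good K e)) := by
    congr 1
    funext a
    cases good K a <;> rfl
  rw [h2] at h
  omega

theorem reds_true (E : List (ℕ × ℕ)) (X : Finset ℕ) : cutSize (reds E) X true =
    E.zipIdx.countP (fun p => decide (0 ∈ X ∧ 4 * p.2 + 3 ∉ X)) +
    (E.zipIdx.countP (fun p => decide (4 * p.2 + 3 ∈ X ∧ 4 * p.1.1 + 2 ∉ X)) +
    E.zipIdx.countP (fun p => decide (4 * p.2 + 3 ∈ X ∧ 4 * p.1.2 + 2 ∉ X))) := by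
  unfold reds
  rw [cutSize_append, cutSize_append, cutSize_map, cutSize_map, cutSize_map]
  simp only [true_and]

theorem reds_false (E : List (ℕ × ℕ)) (X : Finset ℕ) : cutSize (reds E) X false = 0 := by
  unfold reds
  rw [cutSize_append, cutSize_append, cutSize_map, cutSize_map, cutSize_map]
  simp

theorem heavy_false (W : List ℕ) (X : Finset ℕ) : cutSize (heavy W) X false = 0 := by
  unfold heavy
  rw [cutSize_map]
  simp

theorem blues_true (V : List ℕ) (X : Finset ℕ) : cutSize (blues V) X true = 0 := by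
  unfold blues
  rw [cutSize_map]
  simp

theorem blues_false (V : List ℕ) (X : Finset ℕ) (h1 : 1 ∉ X) :
    cutSize (blues V) X false = V.countP (fun v => decide (4 * v + 2 ∈ X)) := by
  unfold blues
  rw [cutSize_map]
  congr 1
  funext v
  simp [h1]

theorem arcs_true (V : List ℕ) (E : List (ℕ × ℕ)) (X : Finset ℕ) : cutSize (arcs V E) X true =
    cutSize (heavy (verts V E)) X true + cutSize (reds E) X true := by
  unfold arcs
  rw [cutSize_append, cutSize_append, blues_true, Nat.add_zero]

theorem arcs_false (V : List ℕ) (E : List (ℕ × ℕ)) (X : Finset ℕ) : cutSize (arcs V E) X false =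
    cutSize (blues V) X false := by
  unfold arcs
  rw [cutSize_append, cutSize_append, reds_false, heavy_false, Nat.zero_add, Nat.zero_add]

/-- many leaving heavy arcs -/
theorem heavy_ge {W : List ℕ} {X : Finset ℕ} (J : Finset ℕ) (a : ℕ → ℕ × ℕ)
    (hinj : Set.InjOn a J) (ha : ∀ j ∈ J, a j ∈ (heavy W).map Prod.fst ∧ (a j).1 ∈ X ∧ (a j).2 ∉ X) :
    J.card ≤ cutSize (heavy W) X true := by
  unfold cutSize
  rw [← Finset.card_image_of_injOn hinj]
  have h1 : (J.image a) ⊆ (((heavy W).filter
      (fun e => e.2 = true ∧ e.1.1 ∈ X ∧ e.1.2 ∉ X)).map Prod.fst).toFinset := by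
    intro q hq
    rw [Finset.mem_image] at hq
    obtain ⟨j, hj, rfl⟩ := hq
    obtain ⟨h1, h2, h3⟩ := ha j hj
    rw [List.mem_toFinset, List.mem_map]
    rw [List.mem_map] at h1
    obtain ⟨e, he, he'⟩ := h1
    refine ⟨e, ?_, he'⟩
    rw [List.mem_filter]
    refine ⟨he, ?_⟩
    have h4 : e.2 = true := by
      unfold heavy at he
      rw [List.mem_map] at he
      obtain ⟨q, _, rfl⟩ := he
      rfl
    rw [he']
    simp [h4, h2, h3]
  refine (Finset.card_le_card h1).trans ((List.toFinset_card_le _).trans ?_)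
  rw [List.length_map]

theorem card_J (N a b : ℕ) : N ≤ ((Finset.range N).filter (fun j => j ≠ a ∧ j ≠ b)).card + 2 := by
  have h1 : Finset.range N ⊆ (Finset.range N).filter (fun j => j ≠ a ∧ j ≠ b) ∪ {a, b} := by
    intro x hx
    rw [Finset.mem_union, Finset.mem_filter]
    by_cases h2 : x = a
    · right; simp [h2]
    · by_cases h3 : x = b
      · right; simp [h3]
      · left; exact ⟨hx, h2, h3⟩
  have h2 := (Finset.card_le_card h1).trans (Finset.card_union_le _ _)
  rw [Finset.card_range] at h2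
  have h3 : ({a, b} : Finset ℕ).card ≤ 2 := Finset.card_le_two
  omega

theorem force_s {V : List ℕ} {E : List (ℕ × ℕ)} {X : Finset ℕ} (hX : ∀ v ∈ X, v ∈ verts V E)
    {x : ℕ} (hx : x ∈ X) {i : ℕ} (hi : i < E.length + 3) (his : 4 * i ∉ X) :
    E.length < cutSize (heavy (verts V E)) X true := by
  have hS : ∀ j < E.length + 3, 4 * j ∈ verts V E := fun j hj => mem_verts.2 (Or.inl ⟨j, hj, rfl⟩)
  have h := heavy_ge (W := verts V E) (X := X)
    ((Finset.range (E.length + 3)).filter (fun j => j ≠ i ∧ j ≠ x / 4))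
    (fun j => if 4 * j ∈ X then (4 * j, 4 * i) else (x, 4 * j)) ?_ ?_
  · have := card_J (E.length + 3) i (x / 4)
    omega
  · intro j hj j' hj' heq
    simp only [Finset.coe_filter, Finset.mem_range, Set.mem_setOf_eq] at hj hj' heq
    split_ifs at heq <;> simp only [Prod.mk.injEq] at heq <;> omega
  · intro j hj
    simp only [Finset.mem_filter, Finset.mem_range] at hj
    split_ifs with h1
    · rw [mem_heavy]
      exact ⟨⟨hS j hj.1, hS i hi, by simp only; omega, Or.inl (by simp only; omega)⟩, h1, his⟩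
    · rw [mem_heavy]
      refine ⟨⟨hX x hx, hS j hj.1, ?_, Or.inl (by simp only; omega)⟩, hx, h1⟩
      rintro h2
      apply h1
      simp only at h2
      rw [← h2]
      exact hx

theorem force_t {V : List ℕ} {E : List (ℕ × ℕ)} {X : Finset ℕ}
    {y : ℕ} (hy : y ∉ X) (hyV : y ∈ verts V E) {i : ℕ} (hi : i < E.length + 3)
    (his : 4 * i + 1 ∈ X) : E.length < cutSize (heavy (verts V E)) X true := by
  have hS : ∀ j < E.length + 3, 4 * j + 1 ∈ verts V E :=
    fun j hj => mem_verts.2 (Or.inr (Or.inl ⟨j, hj, rfl⟩))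
  have h := heavy_ge (W := verts V E) (X := X)
    ((Finset.range (E.length + 3)).filter (fun j => j ≠ i ∧ j ≠ y / 4))
    (fun j => if 4 * j + 1 ∈ X then (4 * j + 1, y) else (4 * i + 1, 4 * j + 1)) ?_ ?_
  · have := card_J (E.length + 3) i (y / 4)
    omega
  · intro j hj j' hj' heq
    simp only [Finset.coe_filter, Finset.mem_range, Set.mem_setOf_eq] at hj hj' heq
    split_ifs at heq <;> simp only [Prod.mk.injEq] at heq <;> omega
  · intro j hj
    simp only [Finset.mem_filter, Finset.mem_range] at hj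
    split_ifs with h1
    · rw [mem_heavy]
      refine ⟨⟨hS j hj.1, hyV, ?_, Or.inr (by simp only; omega)⟩, h1, hy⟩
      rintro h2
      apply hy
      simp only at h2
      rw [← h2]
      exact h1
    · rw [mem_heavy]
      exact ⟨⟨hS i hi, hS j hj.1, by simp only; omega, Or.inr (by simp only; omega)⟩, his, h1⟩

/-- the side belonging to a set `K` of vertices -/
def side (V : List ℕ) (E : List (ℕ × ℕ)) (K : Finset ℕ) : Finset ℕ :=
  ((verts V E).filter (fun x => decide (x % 4 = 0) || (decide (x % 4 = 2) && decide (x / 4 ∈ K)) ||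
    (decide (x % 4 = 3) && (E[x / 4]?).any (good K)))).toFinset

theorem mem_side {V : List ℕ} {E : List (ℕ × ℕ)} {K : Finset ℕ} {x : ℕ} : x ∈ side V E K ↔
    x ∈ verts V E ∧ (x % 4 = 0 ∨ (x % 4 = 2 ∧ x / 4 ∈ K) ∨
      (x % 4 = 3 ∧ ∃ e, E[x / 4]? = some e ∧ good K e = true)) := by
  unfold side
  simp only [List.mem_toFinset, List.mem_filter, Bool.or_eq_true, Bool.and_eq_true,
    decide_eq_true_eq, Option.any_eq_true, or_assoc]

theorem mem_side_v {V : List ℕ} {E : List (ℕ × ℕ)} {K : Finset ℕ} {v : ℕ} (hv : v ∈ V) :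
    4 * v + 2 ∈ side V E K ↔ v ∈ K := by
  rw [mem_side]
  have h1 : (4 * v + 2) / 4 = v := by omega
  rw [h1]
  constructor
  · rintro ⟨-, h | h | h⟩
    · omega
    · exact h.2
    · omega
  · intro h
    exact ⟨mem_verts.2 (Or.inr (Or.inr (Or.inl ⟨v, hv, rfl⟩))), Or.inr (Or.inl ⟨by omega, h⟩)⟩

theorem mem_side_y {V : List ℕ} {E : List (ℕ × ℕ)} {K : Finset ℕ} {p : (ℕ × ℕ) × ℕ}
    (hp : p ∈ E.zipIdx) : 4 * p.2 + 3 ∈ side V E K ↔ good K p.1 = true := by
  rw [mem_side]
  have h1 : (4 * p.2 + 3) / 4 = p.2 := by omega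
  rw [h1]
  have h2 : E[p.2]? = some p.1 := List.mem_zipIdx_iff_getElem?.1 hp
  constructor
  · rintro ⟨-, h | h | ⟨-, e, he, h⟩⟩
    · omega
    · omega
    · rw [h2] at he
      simp only [Option.some.injEq] at he
      rw [he]
      exact h
  · intro h
    exact ⟨mem_verts.2 (Or.inr (Or.inr (Or.inr ⟨p.2, lt_of_mem_zipIdx hp, rfl⟩))),
      Or.inr (Or.inr ⟨by omega, p.1, h2, h⟩)⟩

theorem heavy_side (V : List ℕ) (E : List (ℕ × ℕ)) (K : Finset ℕ) :
    cutSize (heavy (verts V E)) (side V E K) true = 0 := by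
  unfold cutSize
  rw [List.length_eq_zero_iff, List.filter_eq_nil_iff]
  intro e he
  have h1 : e.1 ∈ (heavy (verts V E)).map Prod.fst := List.mem_map_of_mem he
  rw [mem_heavy] at h1
  obtain ⟨h1, h2, h3, h4⟩ := h1
  simp only [decide_eq_true_eq, not_and, not_not]
  intro _ h5
  rw [mem_side] at h5 ⊢
  refine ⟨h2, ?_⟩
  rcases h4 with h4 | h4
  · exact Or.inl h4
  · rcases h5.2 with h | h | h <;> omega

theorem correct {V : List ℕ} {E : List (ℕ × ℕ)} {k : ℕ} (hG : IsGraph V E) (hk : 2 ≤ k) :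
    CLIQUE ((V, E), k) ↔ HasCut (red ((V, E), k)) := by
  unfold red
  simp only
  have hev : ∃ j, k * (k - 1) = 2 * j := by
    obtain ⟨j, hj⟩ : Even (k * (k - 1)) := Nat.even_mul_pred_self _
    exact ⟨j, by omega⟩
  constructor
  · rintro ⟨-, K, hKV, hKc, hK⟩
    simp only at hKV hKc hK
    have h1 := two_mul_countP_of_clique hG K hK
    rw [hKc] at h1
    have h2 := countP_bad E K
    rw [if_pos (by omega)]
    refine ⟨side V E K, fun v hv => (mem_side.1 hv).1, ⟨0, ?_⟩, ⟨1, ?_, ?_⟩, ?_, ?_⟩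
    · rw [mem_side]
      exact ⟨mem_verts.2 (Or.inl ⟨0, by omega, rfl⟩), Or.inl rfl⟩
    · exact mem_verts.2 (Or.inr (Or.inl ⟨0, by omega, rfl⟩))
    · rw [mem_side]
      rintro ⟨-, h | h | h⟩ <;> omega
    · simp only
      rw [arcs_true, heavy_side, Nat.zero_add, reds_true]
      refine (sum_ge E.zipIdx _ _ _ (fun p => !(good K p.1)) ?_).trans ?_
      · intro p hp
        have hpE : p.1 ∈ E := List.fst_mem_of_mem_zipIdx hp
        have ha := mem_side_v (E := E) (K := K) (hG.2.1 _ hpE).1
        have hb := mem_side_v (E := E) (K := K) (hG.2.1 _ hpE).2.1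
        simp only [mem_side_y hp, ha, hb]
        simp only [good]
        by_cases h5 : p.1.1 ∈ K <;> by_cases h6 : p.1.2 ∈ K <;>
          by_cases h7 : 0 ∈ side V E K <;> simp [h5, h6, h7]
      · rw [countP_zipIdx E (fun e => !(good K e))]
        obtain ⟨j, hj⟩ := hev
        omega
    · simp only
      rw [arcs_false, blues_false V _ (by
        rw [mem_side]
        rintro ⟨-, h | h | h⟩ <;> omega)]
      have h3 : V.countP (fun v => decide (4 * v + 2 ∈ side V E K)) =
          V.countP (fun v => decide (v ∈ K)) := by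
        refine List.countP_congr fun v hv => ?_
        simp only [decide_eq_true_eq]
        exact mem_side_v hv
      rw [h3, List.countP_eq_length_filter, ← List.toFinset_card_of_nodup (hG.1.filter _), ← hKc]
      refine Finset.card_le_card fun v hv => ?_
      simp only [List.mem_toFinset, List.mem_filter, decide_eq_true_eq] at hv
      exact hv.2
  · intro h
    by_cases hc : k * (k - 1) ≤ 2 * E.length
    · rw [if_pos hc] at h
      obtain ⟨X, hXV, ⟨x, hx⟩, ⟨y, hyV, hy⟩, hr, hb⟩ := h
      simp only at hXV hyV hr hb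
      rw [arcs_true] at hr
      rw [arcs_false] at hb
      have h0 : 0 ∈ X := by
        by_contra h0
        have := force_s hXV hx (i := 0) (by omega) h0
        omega
      have h1 : 1 ∉ X := by
        intro h1
        have := force_t hy hyV (i := 0) (by omega) h1
        omega
      rw [reds_true] at hr
      rw [blues_false V _ h1] at hb
      set K : Finset ℕ := (V.filter (fun v => decide (4 * v + 2 ∈ X))).toFinset with hKdef
      have hKc : K.card ≤ k := by
        rw [hKdef, List.toFinset_card_of_nodup (hG.1.filter _), ← List.countP_eq_length_filter]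
        exact hb
      have hmem : ∀ v ∈ V, (v ∈ K ↔ 4 * v + 2 ∈ X) := by
        intro v hv
        rw [hKdef]
        simp only [List.mem_toFinset, List.mem_filter, decide_eq_true_eq]
        exact ⟨fun h => h.2, fun h => ⟨hv, h⟩⟩
      have h2 := sum_le E.zipIdx (fun p => decide (0 ∈ X ∧ 4 * p.2 + 3 ∉ X))
        (fun p => decide (4 * p.2 + 3 ∈ X ∧ 4 * p.1.1 + 2 ∉ X))
        (fun p => decide (4 * p.2 + 3 ∈ X ∧ 4 * p.1.2 + 2 ∉ X))
        (fun p => !(good K p.1)) ?_
      · rw [countP_zipIdx E (fun e => !(good K e))] at h2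
        have h3 := countP_bad E K
        obtain ⟨j, hj⟩ := hev
        have h4 := clique_of_dense hG K hk hKc (by omega)
        refine ⟨hG, K, ?_, h4.1, h4.2⟩
        intro v hv
        rw [hKdef] at hv
        simp only [List.mem_toFinset, List.mem_filter] at hv
        exact hv.1
      · intro p hp
        have hpE : p.1 ∈ E := List.fst_mem_of_mem_zipIdx hp
        have ha := hmem _ (hG.2.1 _ hpE).1
        have hb := hmem _ (hG.2.1 _ hpE).2.1
        simp only [good, ha, hb]
        by_cases h5 : 4 * p.1.1 + 2 ∈ X <;> by_cases h6 : 4 * p.1.2 + 2 ∈ X <;>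
          by_cases h7 : 4 * p.2 + 3 ∈ X <;> simp [h0, h5, h6, h7]
    · rw [if_neg hc] at h
      obtain ⟨X, hX, ⟨x, hx⟩, ⟨y, hyV, hy⟩, hr, -⟩ := h
      exfalso
      have hx' := hX x hx
      simp only [noInst, List.mem_cons, List.not_mem_nil, or_false] at hx' hyV hr
      rcases hx' with rfl | rfl <;> rcases hyV with rfl | rfl
      · exact hy hx
      · simp [cutSize, hx, hy] at hr
      · simp [cutSize, hx, hy] at hr
      · exact hy hx

theorem hard : NPHardOn Valid HasCut := by
  refine npHardOn_of hardPr_CLIQUE red_poly ?_ ?_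
  · rintro ⟨⟨V, E⟩, k⟩ ⟨hG, hk⟩
    simp only at hG hk
    unfold red
    split
    · exact valid_arcs hG
    · exact noInst_valid
  · rintro ⟨⟨V, E⟩, k⟩ ⟨hG, hk⟩
    exact correct hG hk

/-! ### Membership in NP -/

/-- the number of cut arcs, for a side given by a list -/
def cutSizeL (A : CArcs) (w : List ℕ) (c : Bool) : ℕ :=
  (A.filter (fun e => decide (e.2 = c) && (decide (e.1.1 ∈ w) && !decide (e.1.2 ∈ w)))).length

theorem cutSizeL_eq (A : CArcs) (w : List ℕ) (c : Bool) :
    cutSizeL A w c = cutSize A w.toFinset c := by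
  unfold cutSizeL cutSize
  congr 2
  funext e
  by_cases h0 : e.2 = c <;> by_cases h1 : e.1.1 ∈ w <;> by_cases h2 : e.1.2 ∈ w <;>
    simp [h0, h1, h2]

theorem cutSize_filter {V : List ℕ} {A : CArcs}
    (hG : ∀ e ∈ A.map Prod.fst, e.1 ∈ V ∧ e.2 ∈ V ∧ e.1 ≠ e.2) (X : Finset ℕ) (c : Bool) :
    cutSizeL A (V.filter (fun v => decide (v ∈ X))) c = cutSize A X c := by
  unfold cutSizeL cutSize
  congr 1
  refine List.filter_congr fun e he => ?_
  have h := hG e.1 (List.mem_map_of_mem he)
  by_cases h0 : e.2 = c <;> by_cases h1 : e.1.1 ∈ X <;> by_cases h2 : e.1.2 ∈ X <;>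
    simp [h0, h1, h2, h.1, h.2.1]

/-- the test of a certificate -/
def Chk (q : Inst × List ℕ) : Prop :=
  Valid q.1 ∧ (∀ v ∈ q.2, v ∈ q.1.1.1) ∧ (∃ v ∈ q.1.1.1, v ∈ q.2) ∧ (∃ v ∈ q.1.1.1, v ∉ q.2) ∧
    cutSizeL q.1.1.2 q.2 true ≤ q.1.2.1 ∧ cutSizeL q.1.1.2 q.2 false ≤ q.1.2.2

theorem pp_valid {α : Type} [TEnc α] {f : α → Inst} (hf : NPC.Poly f) :
    PP (fun a => Valid (f a)) := by
  unfold Valid
  refine PP.and (pp_nodup (by fun_prop)) (PP.and ?_ (pp_nodup (by fun_prop)))
  exact PP.ball (l := fun a => (f a).1.2.map Prod.fst)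
    (r := fun a (e : ℕ × ℕ) => e.1 ∈ (f a).1.1 ∧ e.2 ∈ (f a).1.1 ∧ e.1 ≠ e.2) (by fun_prop)
    (PP.and (PP.mem (by fun_prop) (by fun_prop)) (PP.and (PP.mem (by fun_prop) (by fun_prop))
      (PP.ne (by fun_prop) (by fun_prop))))

theorem pp_chk : PP Chk := by
  unfold Chk
  refine PP.and (pp_valid (by fun_prop)) (PP.and ?_ (PP.and ?_ (PP.and ?_ (PP.and
    (PP.le ?_ (by fun_prop)) (PP.le ?_ (by fun_prop))))))
  · exact PP.ball (l := fun q : Inst × List ℕ => q.2)
      (r := fun (q : Inst × List ℕ) (v : ℕ) => v ∈ q.1.1.1) (by fun_prop)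
      (PP.mem (by fun_prop) (by fun_prop))
  · exact PP.bex (l := fun q : Inst × List ℕ => q.1.1.1)
      (r := fun (q : Inst × List ℕ) (v : ℕ) => v ∈ q.2) (by fun_prop)
      (PP.mem (by fun_prop) (by fun_prop))
  · exact PP.bex (l := fun q : Inst × List ℕ => q.1.1.1)
      (r := fun (q : Inst × List ℕ) (v : ℕ) => v ∉ q.2) (by fun_prop)
      (PP.not (PP.mem (by fun_prop) (by fun_prop)))
  · unfold cutSizeL
    fun_prop
  · unfold cutSizeL
    fun_prop

theorem inNP : InNPP (fun I : Inst => Valid I ∧ HasCut I) := by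
  obtain ⟨R, hR, hR'⟩ := pp_chk
  refine inNPP_of hR Polynomial.X fun I => ?_
  simp only [hR', Polynomial.eval_X]
  constructor
  · rintro ⟨hv, X, hX, ⟨x, hx⟩, ⟨y, hyV, hy⟩, hr, hb⟩
    refine ⟨I.1.1.filter (fun v => decide (v ∈ X)), ?_, hv, ?_, ?_, ?_, ?_, ?_⟩
    · refine (sz_filter_le _ _).trans ?_
      obtain ⟨⟨V, E⟩, J⟩ := I
      simp only [sz_pair]
      omega
    · intro v hv'
      exact (List.mem_filter.1 hv').1
    · refine ⟨x, hX x hx, ?_⟩
      simp only [List.mem_filter, decide_eq_true_eq]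
      exact ⟨hX x hx, hx⟩
    · refine ⟨y, hyV, ?_⟩
      simp only [List.mem_filter, decide_eq_true_eq, not_and]
      exact fun _ => hy
    · simp only
      rw [cutSize_filter hv.2.1]
      exact hr
    · simp only
      rw [cutSize_filter hv.2.1]
      exact hb
  · rintro ⟨w, -, hv, hw, ⟨x, hxV, hx⟩, ⟨y, hyV, hy⟩, hr, hb⟩
    simp only at hv hw hxV hx hyV hy hr hb
    rw [cutSizeL_eq] at hr hb
    refine ⟨hv, w.toFinset, ?_, ⟨x, List.mem_toFinset.2 hx⟩,
      ⟨y, hyV, fun h => hy (List.mem_toFinset.1 h)⟩, hr, hb⟩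
    intro v hv'
    exact hw v (List.mem_toFinset.1 hv')

/-- A function that decides the problem on the valid instances. -/
def Decides (A : List Bool → List Bool) : Prop := ∀ I, Valid I → (A (bits I) = [true] ↔ HasCut I)

/-- The (global) red-blue cut problem in directed graphs is `NP`-complete, already for digraphs
without loops and parallel arcs: the set of the yes-instances is in `NP`, it is `NP`-hard, and
moreover every problem in `NP` is reducible to the cut problem by a polynomial-time many-one reduction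
which only produces valid instances. In particular, if `P ≠ NP` then no polynomial-time algorithm
decides the problem. -/
theorem result :
    InNPP (fun I : Inst => Valid I ∧ HasCut I) ∧
    NPHardP (fun I : Inst => Valid I ∧ HasCut I) ∧
    NPHardOn Valid HasCut ∧
    (PneNP → ¬ ∃ A : List Bool → List Bool, PolyTime A ∧ Decides A) := by
  refine ⟨inNP, npHardP_and hard, hard, ?_⟩
  rintro ⟨L, hL, hL'⟩ ⟨A, hA, hd⟩
  apply hL'
  obtain ⟨g, hg, hgp, hgL⟩ := hard L hL
  exact ⟨fun x => A (bits (g x)),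
    H642R2.TMSim.polyTime_comp (g := A) (f := fun x => bits (g x)) hA hg,
    fun x => (hgL x).trans (hd _ (hgp x)).symm⟩

end Pool.Agent.Results.MP_ac2b6c_lc.DirectedRedBlueCutNPComplete
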